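import Pool.Agent.H51.MO.TargetsB

/-! # MP_c62aed_lc, monotone circuits for 3-SAT: assembly of the core inequality -/

namespace Pool.Agent.H74.MO

open Finset
open Pool.Agent.H1.LP (Clause viol Loc Sys Agree supp ip kk)
open Pool.Agent.H96.KX
open Pool.Agent.H51.MO

theorem m_arith3 (Ac UB pB q4 al HU HB W G pp R : ℝ) (hU : 0 < UB)
    (hUH : HU = UB * HB) (hpB : pB * q4 = pp) (har : al * G = 1) (hG : 0 ≤ G)
    (key : Ac * UB ≤ R * W * (pB * (q4 * al * HU))) :
    Ac * G ≤ R * pp * W * HB := by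
  have key2 : Ac ≤ R * W * (pB * (q4 * al * HB)) := by
    have e1 : R * W * (pB * (q4 * al * HU)) = (R * W * (pB * (q4 * al * HB))) * UB := by
      rw [hUH]
      ring
    rw [e1] at key
    exact le_of_mul_le_mul_right key hU
  calc Ac * G ≤ (R * W * (pB * (q4 * al * HB))) * G := by gcongr
    _ = R * (pB * q4) * W * HB * (al * G) := by ring
    _ = _ := by
        rw [har, hpB]
        ring

theorem pf_MCORE3 (hID : S_IDX) (hBP : S_BIP) (hBZ : S_BIZ) (hMA : S_MAS) (hPA : S_PDA)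
    (hPP : S_PDP) (hAB : S_MABS) (hFR : S_FRM3) (hLO : Pool.Agent.H1.LP.S_LOC) :
    S_MCORE3 := by
  classical
  intro B R t q n ε T Ys hR ht hq hBn hT hA01 hfar
  have hfact : Fact (Nat.Prime 2) := ⟨Nat.prime_two⟩
  obtain ⟨S, hS⟩ := hLO 2 B R t (t / 3) Ys (by omega)
  have hsupp : ∀ i, supp (Ys.A i) ⊆ T i := by
    intro i j hj
    by_contra hne
    have h1 : Ys.A i j ≠ 0 := (mem_filter.1 hj).2
    rw [hA01, if_neg hne] at h1
    exact h1 rfl
  have hrow : ∀ i, Ys.A i ∈ S.La ∧ S.ga (Ys.A i) = Ys.be i := by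
    intro i
    apply hS
    calc (supp (Ys.A i)).card ≤ (T i).card := card_le_card (hsupp i)
      _ = 3 := hT i
      _ ≤ _ := by omega
  obtain ⟨asg, dec, C, fC, cl, inF, eq, F, phi, hda, hcC, hF, hcl, hphi, hsum, hviol, hlast⟩ :=
    hFR B R q n T Ys.A Ys.be (by omega) hT hA01 hBn
  have hne : Nonempty (Fin q) := ⟨⟨0, by omega⟩⟩
  have hqR : (4 : ℝ) ≤ q := by exact_mod_cast hq
  have hq0 : (0 : ℝ) < q := by linarith
  obtain ⟨Yc, hYc⟩ : ∃ Yc, Fintype.card (Fin B → Fin q) = Yc := ⟨_, rfl⟩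
  have hYc' : Yc = q ^ B := by
    rw [← hYc, Fintype.card_fun, Fintype.card_fin, Fintype.card_fin]
  let e : Fin Yc ≃ (Fin B → Fin q) := (Fintype.equivFinOfCardEq hYc).symm
  refine ⟨Yc, fun _ => 4 * R, fun a => phi (e a), ?_, ?_, ?_⟩
  · rw [hYc']
    have : 0 < q := by omega
    positivity
  · intro a
    refine ⟨?_, le_rfl, ?_, ?_⟩
    · show 1 ≤ 4 * R
      omega
    · intro c
      obtain ⟨c', hc'⟩ := hphi (e a) c
      show (phi (e a) c).card = 3 ∧ ((phi (e a) c).image Prod.fst).card = 3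
      rw [hc']
      exact hcl c'
    · intro y
      rw [hviol (e a) y]
      refine le_trans (le_of_eq ?_) (hfar _)
      push_cast
      ring
  -- the inequality
  intro Ci A W hSound hA hBd
  set A' : Finset (Fin B → Fin q) := A.map e.toEmbedding with hA'
  have hA'c : A'.card = A.card := card_map _
  have hA'm : ∀ a ∈ A', Acc Ci (phi a) := by
    intro a ha
    obtain ⟨i, hi, rfl⟩ := mem_map.1 ha
    exact hA i hi
  let X := Fin B → Fin q → ZMod 2
  let h : Fin q → (Fin q → ZMod 2) → ZMod 2 := fun a u => u a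
  have hUne : Nonempty (Fin q → ZMod 2) := inferInstance
  have hPI : PairInd h := hID q
  have hc2 : Fintype.card (ZMod 2) = 2 := ZMod.card 2
  have hcU : Fintype.card (Fin q → ZMod 2) = 2 ^ q := by
    rw [Fintype.card_fun, hc2, Fintype.card_fin]
  have hQH : (Fintype.card (ZMod 2) : ℝ) ^ 2 ≤ Fintype.card (Fin q) := by
    rw [hc2, Fintype.card_fin]
    push_cast
    linarith
  obtain ⟨ka, hka⟩ : ∃ ka : ℝ, ka = (2 : ℝ) ^ B * Real.sqrt (kap (Fin q)
    (Fin q → ZMod 2) (ZMod 2) B (t / 3 + 1)) := ⟨_, rfl⟩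
  have hkap0 : 0 ≤ kap (Fin q) (Fin q → ZMod 2) (ZMod 2) B (t / 3 + 1) := by
    unfold kap
    positivity
  have hka0 : 0 ≤ ka := by
    rw [hka]
    positivity
  have hka' : ∀ s : ℝ, ka * Real.sqrt s = (2 : ℝ) ^ B * Real.sqrt (kap (Fin q)
      (Fin q → ZMod 2) (ZMod 2) B (t / 3 + 1) * s) := by
    intro s
    rw [hka, Real.sqrt_mul hkap0, mul_assoc]
  have hD1 : ∀ z, |PDz S z| ≤ (2 : ℝ) ^ B := by
    intro z
    have := (hPA 2 B _ S).1 z
    push_cast at this
    exact this
  have hmass : ∀ a : Fin B → Fin q,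
      ∑ x : X, PDz S (fun i => h (a i) (x i)) = Fintype.card X := by
    intro a
    have h1 := hMA (Fin q) (Fin q → ZMod 2) (ZMod 2) h hPI B (PDz S) a
    rw [(hPA 2 B _ S).2, hc2] at h1
    have h2 : ((2 : ℕ) : ℝ) ^ B ≠ 0 := by positivity
    have h3 := mul_right_cancel₀ h2 h1
    rw [h3]
    show _ = ((Fintype.card (Fin B → Fin q → ZMod 2) : ℕ) : ℝ)
    rw [Fintype.card_fun (α := Fin B), Fintype.card_fin]
    push_cast
    rfl
  -- rectangles as indicator functions
  let fI : Finset (Fin B → Fin q) → (Fin B → Fin q) → ℝ := fun A0 a => if a ∈ A0 then 1 else 0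
  let gI : Finset X → X → ℝ := fun B0 x => if x ∈ B0 then 1 else 0
  have hf0 : ∀ A0 a, 0 ≤ fI A0 a := by
    intro A0 a
    show (0 : ℝ) ≤ if a ∈ A0 then 1 else 0
    split_ifs <;> norm_num
  have hg0 : ∀ B0 x, 0 ≤ gI B0 x := by
    intro B0 x
    show (0 : ℝ) ≤ if x ∈ B0 then 1 else 0
    split_ifs <;> norm_num
  have hf2 : ∀ A0 : Finset (Fin B → Fin q), ∑ a, fI A0 a ^ 2 = (A0.card : ℝ) := by
    intro A0
    have : ∀ a, fI A0 a ^ 2 = if a ∈ A0 then (1 : ℝ) else 0 := by
      intro a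
      show (if a ∈ A0 then (1 : ℝ) else 0) ^ 2 = _
      split_ifs <;> norm_num
    simp only [this]
    rw [← Finset.sum_filter, Finset.filter_mem_eq_inter, Finset.univ_inter]
    simp
  have hg2 : ∀ B0 : Finset X, ∑ x, gI B0 x ^ 2 = (B0.card : ℝ) := by
    intro B0
    have : ∀ x, gI B0 x ^ 2 = if x ∈ B0 then (1 : ℝ) else 0 := by
      intro x
      show (if x ∈ B0 then (1 : ℝ) else 0) ^ 2 = _
      split_ifs <;> norm_num
    simp only [this]
    rw [← Finset.sum_filter, Finset.filter_mem_eq_inter, Finset.univ_inter]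
    simp
  have hrect : ∀ (A0 : Finset (Fin B → Fin q)) (B0 : Finset X),
      bil h (PDz S) (fI A0) (gI B0) =
        ∑ a ∈ A0, ∑ x ∈ B0, PDz S (fun i => h (a i) (x i)) := by
    intro A0 B0
    have h1 : ∀ a, ∑ x, fI A0 a * gI B0 x * PDz S (fun i => h (a i) (x i)) =
        if a ∈ A0 then ∑ x ∈ B0, PDz S (fun i => h (a i) (x i)) else 0 := by
      intro a
      by_cases ha : a ∈ A0
      · rw [if_pos ha]
        have h2 : ∀ x, fI A0 a * gI B0 x * PDz S (fun i => h (a i) (x i)) =
            if x ∈ B0 then PDz S (fun i => h (a i) (x i)) else 0 := by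
          intro x
          show (if a ∈ A0 then (1 : ℝ) else 0) * (if x ∈ B0 then (1 : ℝ) else 0) * _ = _
          rw [if_pos ha]
          split_ifs <;> simp
        simp only [h2]
        rw [← Finset.sum_filter, Finset.filter_mem_eq_inter, Finset.univ_inter]
      · rw [if_neg ha]
        apply Finset.sum_eq_zero
        intro x _
        show (if a ∈ A0 then (1 : ℝ) else 0) * _ * _ = 0
        rw [if_neg ha]
        ring
    show ∑ a, ∑ x, fI A0 a * gI B0 x * PDz S (fun i => h (a i) (x i)) = _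
    simp only [h1]
    rw [← Finset.sum_filter, Finset.filter_mem_eq_inter, Finset.univ_inter]
  -- the main application
  have key := hAB X (Fin B → Fin q) n R
    (fun a x => PDz S (fun i => h (a i) (x i))) ka (fun a => Set.range (phi a))
    (fun x => {C0 | ∃ c, cl c = C0 ∧ C0.Sat (asg x)})
    (fun a C0 i => ∃ c, inF a c ∧ cl c = C0 ∧ eq c = i) hR hka0 hmass
    (by
      rintro a C0 ⟨j, rfl⟩
      have h1 := hsum a (fun Cl => if Cl = phi a j then (1 : ℝ) else 0)
      have h2 : (1 : ℝ) ≤ ∑ i, (if phi a i = phi a j then (1 : ℝ) else 0) := by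
        have h3 : (if phi a j = phi a j then (1 : ℝ) else 0) ≤
            ∑ i, (if phi a i = phi a j then (1 : ℝ) else 0) :=
          Finset.single_le_sum (f := fun i => if phi a i = phi a j then (1 : ℝ) else 0)
            (fun i _ => by
              show (0 : ℝ) ≤ if phi a i = phi a j then 1 else 0
              split_ifs <;> norm_num) (mem_univ j)
        rw [if_pos rfl] at h3
        exact h3
      by_contra hcon
      push Not at hcon
      have h4 : ∑ c ∈ F a, (if cl c = phi a j then (1 : ℝ) else 0) = 0 := by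
        apply Finset.sum_eq_zero
        intro c hc
        rw [if_neg]
        intro hcj
        exact hcon (eq c) c ((hF a c).1 hc) hcj rfl
      have h5 : ∑ i, (if phi a i = phi a j then (1 : ℝ) else 0) = 0 := h1.trans h4
      linarith)
    (by
      intro A0 B0
      rw [← hrect, hka', ← hf2, ← hg2]
      refine hBP _ _ _ h hPI hQH B (t / 3 + 1) (PDz S) ((2 : ℝ) ^ B) hD1 ?_ _ _ (hf0 A0) (hg0 B0)
      intro τ hτ
      exact (hPP 2 B _ S τ (by omega)).1)
    (by
      intro C0 i A0 B0 hA0 hB0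
      rw [← hrect, hka', ← hf2, ← hg2]
      refine le_trans (le_abs_self _) ?_
      refine hBZ _ _ _ h hPI hQH B (t / 3 + 1) (PDz S) ((2 : ℝ) ^ B)
        (fun z => ip (Ys.A i) z ≠ Ys.be i) hD1 ?_ _ _ (hf0 A0) ?_
      · intro τ hτ hW
        refine (hPP 2 B _ S τ (by omega)).2 (Ys.A i) (hrow _).1 ?_
        intro z hz1
        rw [(hrow i).2]
        exact hW z hz1
      · intro a x ha hx
        have ha' : a ∈ A0 := by
          by_contra hn
          apply ha
          show (if a ∈ A0 then (1 : ℝ) else 0) = 0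
          rw [if_neg hn]
        have hx' : x ∈ B0 := by
          by_contra hn
          apply hx
          show (if x ∈ B0 then (1 : ℝ) else 0) = 0
          rw [if_neg hn]
        obtain ⟨-, c, hc1, hc2', hc3⟩ := hA0 a ha'
        have hx2 := hB0 x hx'
        have hns : ¬ (cl c).Sat (asg x) := by
          intro hs
          apply hx2
          exact ⟨c, hc2', by rw [← hc2']; exact hs⟩
        have h1 := hlast a c x hc1 hns
        rw [hc3] at h1
        exact h1)
    Ci A' W (fun a ha => hA'm a ha)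
    (by
      intro x
      set Fx : Finset (Clause n) := (univ.image cl).filter (fun C0 => C0.Sat (asg x)) with hFx
      have hcard : Fx.card ≤ R * (2 * q) ^ 3 :=
        ((card_filter_le _ _).trans card_image_le).trans (by rw [card_univ]; exact hcC)
      have hmem : ∀ C0, C0 ∈ Fx ↔ ∃ c, cl c = C0 ∧ C0.Sat (asg x) := by
        intro C0
        rw [hFx, mem_filter, mem_image]
        constructor
        · rintro ⟨⟨c, -, hc⟩, hs⟩
          exact ⟨c, hc, hs⟩
        · rintro ⟨c, hc, hs⟩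
          exact ⟨⟨c, mem_univ _, hc⟩, hs⟩
      have h1 := hSound Fx.card (fun i => (Fx.equivFin.symm i : Clause n)) hcard
        (by
          intro i
          obtain ⟨c, hc, -⟩ := (hmem _).1 (Fx.equivFin.symm i).2
          rw [← hc]
          exact hcl c)
        ⟨asg x, fun i => by
          obtain ⟨c, -, hs⟩ := (hmem _).1 (Fx.equivFin.symm i).2
          exact hs⟩
      have hrange : Set.range (fun i => (Fx.equivFin.symm i : Clause n)) =
          {C0 | ∃ c, cl c = C0 ∧ C0.Sat (asg x)} := by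
        ext C0
        constructor
        · rintro ⟨i, rfl⟩
          exact (hmem _).1 (Fx.equivFin.symm i).2
        · intro hC0
          refine ⟨Fx.equivFin ⟨C0, (hmem C0).2 hC0⟩, ?_⟩
          show ((Fx.equivFin.symm (Fx.equivFin ⟨C0, (hmem C0).2 hC0⟩) : Fx) : Clause n) = C0
          rw [Equiv.symm_apply_apply]
      rw [Pool.Agent.H51.MO.Acc, hrange] at h1
      exact h1)
    hBd
  -- cleaning up
  have hcX : ((Fintype.card X : ℕ) : ℝ) = ((2 : ℝ) ^ q) ^ B := by
    show ((Fintype.card (Fin B → Fin q → ZMod 2) : ℕ) : ℝ) = _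
    rw [Fintype.card_fun (α := Fin B), Fintype.card_fin, hcU]
    push_cast
    rfl
  have hka2 : ka ^ 2 = ((2 : ℝ) ^ B) ^ 2 * (4 ^ B * ((2 : ℝ) ^ 2 / (q : ℝ)) ^
      (t / 3 + 1) * ((2 : ℝ) ^ q * (q : ℝ)) ^ B) := by
    rw [hka, mul_pow, Real.sq_sqrt hkap0]
    unfold kap
    rw [hc2, hcU, Fintype.card_fin]
    push_cast
    rfl
  rw [hA'c, hcX, hka2] at key
  have hYR : (Yc : ℝ) = (q : ℝ) ^ B := by
    rw [hYc']
    push_cast
    rfl
  rw [hYR]
  have har : ((2 : ℝ) ^ 2 / (q : ℝ)) ^ (t / 3 + 1) * ((q : ℝ) / 4) ^ (t / 3 + 1) = 1 := by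
    rw [← mul_pow]
    have : (2 : ℝ) ^ 2 / (q : ℝ) * ((q : ℝ) / 4) = 1 := by
      field_simp
      norm_num
    rw [this, one_pow]
  have hpB : ((2 : ℝ) ^ B) ^ 2 * 4 ^ B = 16 ^ B := by
    rw [← pow_mul, mul_comm B 2, pow_mul, ← mul_pow]
    norm_num
  exact m_arith3 A.card (((2 : ℝ) ^ q) ^ B) (((2 : ℝ) ^ B) ^ 2) (4 ^ B) _
    (((2 : ℝ) ^ q * (q : ℝ)) ^ B) ((q : ℝ) ^ B) W _ (16 ^ B) R (by positivity)
    (by rw [mul_pow]) hpB har (by positivity) key

end Pool.Agent.H74.MO
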